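import Pool.Agent.Q168.LG.TwoPow
import Pool.Agent.Q168.LG.FourDvd

/-!
# Cubic lattices with a plane vector and bounded discriminant

The theorem is about lattices of cubic type (`CubLat`, `CubLat.IsCubic`, module `Pool.Agent.Q53.LFY.Defs`):
`ℤ^23` with a symmetric unimodular form `H.ip`, a characteristic vector `H.h` with `h.h = 3` and a complex
vector `H.ω`; the Hodge vectors (`H.IsHodge v`; they form the group `H.hodge`) are those which are
orthogonal to `H.ω`; the form is positive on them, `h` is one of them, and there is no Hodge vector with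
`(v.h, v.v) = (1, 1)` or `(0, 2)`. `H.disc v = 3 v.v - (v.h)^2` is the discriminant of the group spanned by
`h` and `v`, `InC H d` means that it is `d` for some Hodge vector `v` such that this group is saturated, and
`H.HasK3` that this is so for some admissible `d`. `H.IsPl P`: `P` is a Hodge vector with `P.h = 1` and
`P.P = 3` (a plane vector). No theorem about cubic fourfolds is used or assumed.

By known theorems (Hodge, Voisin, Hassett) the group `H^4(X, ℤ)` of a smooth cubic fourfold `X`, with the
intersection form, the square of the hyperplane class and a generator of `H^{3,1}`, is such a lattice, and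
the plane vectors are the classes of the planes in `X`. `InC H d` means that `X` is in Hassett's divisor
`C_d`, and `H.HasK3` that `X` has an associated K3 surface. `X` is rational if `T.(h - P)` is odd for a plane
vector `P` and a Hodge vector `T` (Hassett), and if it is in `C_14` (Bolognesi, Russo, Staglianò), `C_26`,
`C_38` or `C_42` (Russo, Staglianò): `IsKnown` is this condition of the lattice.
`discA b` is the determinant of the matrix of the form in a basis `b` of `H.hodge`.
-/

set_option autoImplicit false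

namespace Pool.Agent.Results.MP_ffd2c1_ag.PlaneAndDiscriminant

open Pool.Agent.Q53.LFY Pool.Agent.Q53.LFY.CubLat Pool.Agent.Q53.LFA Pool.Agent.Q168.LG Module
open Pool.Agent.Q53.LFB hiding planeBound

/-- The lattice condition of the known rationality theorems: `InC H d` for `d = 14`, `26`, `38` or `42`, or
`T.(h - P)` is odd for some plane vector `P` and some Hodge vector `T`. -/
def IsKnown (H : CubLat) : Prop :=
  (InC H 14 ∨ InC H 26 ∨ InC H 38 ∨ InC H 42) ∨
    ∃ P T, H.IsPl P ∧ H.IsHodge T ∧ Odd (H.ip T (H.h - P))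

/-- The bound for the discriminant of the group of the Hodge vectors, as a function of its rank, for `H`
with a plane vector. -/
def planeBound : ℕ → ℤ
  | 3 => 127
  | 4 => 223
  | 5 => 299
  | 6 => 307
  | 7 => 239
  | 8 => 142
  | _ => 0

theorem planeBound_le (r : ℕ) : planeBound r ≤ Pool.Agent.Q53.LFB.planeBound r := by
  match r with
  | 0 | 1 | 2 | 3 | 4 | 5 | 6 | 7 | 8 => decide
  | _ + 9 => exact le_refl _

/-- **Cubic lattices with a plane vector and bounded discriminant.** Let `r` be the rank and `D` the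
discriminant of the group of the Hodge vectors.

(1) If `4` does not divide `D`, then `IsKnown H` (`T.(h - P)` is odd for some Hodge vector `T`) and `H.HasK3`.

(2) If `D ≤ planeBound r`, then `H.HasK3` if and only if some Hodge vector has a discriminant which is not
divisible by `4`, and if and only if `IsKnown H`.

(3) If `D ≤ planeBound r` and `2 ^ (r - 1)` does not divide `D`, then `IsKnown H` and `H.HasK3`. -/
theorem result {H : CubLat} (hH : H.IsCubic) {P : Fin 23 → ℤ} (hP : H.IsPl P) {r : ℕ}
    (b : Basis (Fin r) ℤ H.hodge) :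
    (¬ (4 : ℤ) ∣ discA b →
      (∃ T, H.IsHodge T ∧ Odd (H.ip T (H.h - P))) ∧ IsKnown H ∧ H.HasK3) ∧
    (discA b ≤ planeBound r →
      (H.HasK3 ↔ ∃ v, H.IsHodge v ∧ ¬ (4 : ℤ) ∣ H.disc v) ∧ (H.HasK3 ↔ IsKnown H)) ∧
    (discA b ≤ planeBound r → ¬ (2 : ℤ) ^ (r - 1) ∣ discA b → IsKnown H ∧ H.HasK3) := by
  have hodd : (∃ P T, H.IsPl P ∧ H.IsHodge T ∧ Odd (H.ip T (H.h - P))) → H.HasK3 := by
    rintro ⟨P, T, hP, hT, h⟩
    refine (of_plane hH hP hT (Or.inr ?_)).2
    rw [← Int.not_even_iff_odd, even_iff hH hP, not_not]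
    exact h
  have h1 := (plane_iff hH hP).1
  have h2 : discA b ≤ planeBound r → (∃ v, H.IsHodge v ∧ ¬ (4 : ℤ) ∣ H.disc v) → IsKnown H := by
    rintro hd ⟨v, hv, h4⟩
    by_cases hno : ∃ P T, H.IsPl P ∧ H.IsHodge T ∧ Odd (H.ip T (H.h - P))
    · exact Or.inr hno
    · exact Or.inl (inK_of_plane hH b (hd.trans (planeBound_le r)) hP
        (fun Q hQ T hT => (even_iff hH hQ).2 fun h => hno ⟨Q, T, hQ, hT, h⟩) hv h4)
  have h3 : IsKnown H → H.HasK3 := fun h => h.elim hasK3_of_inK hodd
  refine ⟨fun h4 => ?_, fun hd => ⟨h1, fun hK => h2 hd (h1.1 hK), h3⟩, fun hd h4 => ?_⟩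
  · have hT : ∃ T, H.IsHodge T ∧ Odd (H.ip T (H.h - P)) := by
      by_contra hcon
      exact h4 (four_dvd_discA hH b hP fun T hT => (even_iff hH hP).2 fun h => hcon ⟨T, hT, h⟩)
    obtain ⟨T, hT, h⟩ := hT
    exact ⟨⟨T, hT, h⟩, Or.inr ⟨P, T, hP, hT, h⟩, hodd ⟨P, T, hP, hT, h⟩⟩
  · have hK : ∃ v, H.IsHodge v ∧ ¬ (4 : ℤ) ∣ H.disc v := by
      by_contra hcon
      push Not at hcon
      exact h4 (two_pow_dvd hH b hcon)
    exact ⟨h2 hd hK, h1.2 hK⟩

end Pool.Agent.Results.MP_ffd2c1_ag.PlaneAndDiscriminant
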