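import Pool.Agent.Q53.LFB.Plane

/-!
# Cubic lattices with a plane vector whose Hodge vectors are generated by small vectors

The theorem is about lattices of cubic type (`CubLat`, `CubLat.IsCubic`, module `Pool.Agent.Q53.LFY.Defs`):
`ℤ^23` with a symmetric unimodular form `H.ip`, a characteristic vector `H.h` with `h.h = 3` and a complex
vector `H.ω`; the Hodge vectors (`H.IsHodge v`; they form the group `H.hodge`) are those which are
orthogonal to `H.ω`; the form is positive on them, `h` is one of them, and there is no Hodge vector with
`(v.h, v.v) = (1, 1)` or `(0, 2)`. `H.disc v = 3 v.v - (v.h)^2` is the discriminant of the group spanned by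
`h` and `v`, `InC H d` means that it is `d` for some Hodge vector `v` such that this group is saturated, and
`H.HasK3` that this is so for some admissible `d`. `H.IsPl P`: `P` is a Hodge vector with `P.h = 1` and
`P.P = 3` (a plane vector). No theorem about cubic fourfolds is used or assumed.

By known theorems (Hodge, Voisin, Hassett) the group `H^4(X, ℤ)` of a smooth cubic fourfold `X`, with the
intersection form, the square of the hyperplane class and a generator of `H^{3,1}`, is such a lattice, and
the plane vectors are the classes of the planes in `X`. `InC H d` means that `X` is in Hassett's divisor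
`C_d`, and `H.HasK3` that `X` has an associated K3 surface. `X` is rational if `T.(h - P)` is odd for a plane
vector `P` and a Hodge vector `T` (Hassett), and if it is in `C_14` (Bolognesi, Russo, Staglianò), `C_26`,
`C_38` or `C_42` (Russo, Staglianò): `IsKnown` is this condition of the lattice.

Proof. Let `T.(h - P)` be even for all Hodge vectors `T`. If there is a generator whose discriminant is
not divisible by four, or two generators `u`, `v` whose discriminants are divisible by four and `D(u, v)`
is odd, then a vector `± P + u`, `± P + u ± v` or `u ± v` has discriminant `14`, `26`, `38` or `42`. If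
there are no such `u`, `v`, then all discriminants of the vectors generated are divisible by four, and
`H.HasK3` is false.
-/

set_option autoImplicit false

namespace Pool.Agent.Results.MP_ffd2c1_ag.PlaneAndGenerators

open Pool.Agent.Q53.LFY Pool.Agent.Q53.LFA

/-- The lattice condition of the known rationality theorems, for the plane vector `P`: `InC H d` for
`d = 14`, `26`, `38` or `42`, or `T.(h - P)` is odd for some Hodge vector `T`. -/
def IsKnown (H : CubLat) (P : Fin 23 → ℤ) : Prop :=
  (InC H 14 ∨ InC H 26 ∨ InC H 38 ∨ InC H 42) ∨ ∃ T, H.IsHodge T ∧ Odd (H.ip T (H.h - P))

/-- A Hodge vector of discriminant at most `42`; if the discriminant is divisible by four, it is at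
most `24` (so the discriminants `32` and `36` are excluded). -/
def Small (H : CubLat) (v : Fin 23 → ℤ) : Prop :=
  H.IsHodge v ∧ H.disc v ≤ 42 ∧ ((4 : ℤ) ∣ H.disc v → H.disc v ≤ 24)

/-- The group of the Hodge vectors is generated by the vectors in `G` up to an odd index. -/
def Generates (H : CubLat) (G : Set (Fin 23 → ℤ)) : Prop :=
  ∀ v, H.IsHodge v → ∃ m : ℤ, Odd m ∧ m • v ∈ Submodule.span ℤ G

/-- **Cubic lattices with a plane vector whose Hodge vectors are generated by small vectors.**
Let `H` be a lattice of cubic type and `P` a plane vector. If the Hodge vectors are generated up to an odd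
index by Hodge vectors of discriminant at most `42`, other than `32` and `36`, then `H.HasK3` if and only if
`InC H 14`, `InC H 26`, `InC H 38`, `InC H 42` or `T.(h - P)` is odd for some Hodge vector `T`. -/
theorem result {H : CubLat} (hH : H.IsCubic) {P : Fin 23 → ℤ} (hP : H.IsPl P)
    (hgen : Generates H {v | Small H v}) : H.HasK3 ↔ IsKnown H P :=
  (Pool.Agent.Q53.LFB.main hH hP (fun v hv => hgen v hv)).trans or_comm

end Pool.Agent.Results.MP_ffd2c1_ag.PlaneAndGenerators
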