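import Pool.Agent.Q53.LFB.PlaneK3

/-!
# Cubic lattices with a plane vector in the divisors of discriminant at most 42

The theorem is about lattices of cubic type (`CubLat`, `CubLat.IsCubic`, module `Pool.Agent.Q53.LFY.Defs`):
`ℤ^23` with a symmetric unimodular form `H.ip`, a characteristic vector `H.h` with `h.h = 3` and a complex
vector `H.ω`; the Hodge vectors (`H.IsHodge v`; they form the group `H.hodge`) are those which are
orthogonal to `H.ω`; the form is positive on them, `h` is one of them, and there is no Hodge vector with
`(v.h, v.v) = (1, 1)` or `(0, 2)`. `H.disc v = 3 v.v - (v.h)^2` is the discriminant of the group spanned by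
`h` and `v`, `InC H d` means that it is `d` for some Hodge vector `v` such that this group is saturated, and
`H.HasK3` that this is so for some admissible `d`. `H.IsPl P`: `P` is a Hodge vector with `P.h = 1` and
`P.P = 3` (a plane vector). No theorem about cubic fourfolds is used or assumed.

By known theorems (Hodge, Voisin, Hassett) the group `H^4(X, ℤ)` of a smooth cubic fourfold `X`, with the
intersection form, the square of the hyperplane class and a generator of `H^{3,1}`, is such a lattice, and
the plane vectors are the classes of the planes in `X`. `InC H d` means that `X` is in Hassett's divisor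
`C_d`, and `H.HasK3` that `X` has an associated K3 surface. `X` is rational if `T.(h - P)` is odd for a plane
vector `P` and a Hodge vector `T` (Hassett), and if it is in `C_14` (Bolognesi, Russo, Staglianò), `C_26`,
`C_38` or `C_42` (Russo, Staglianò): `IsKnown` is this condition of the lattice.
-/

set_option autoImplicit false

namespace Pool.Agent.Results.MP_ffd2c1_ag.PlaneAndSmallDivisors

open Pool.Agent.Q53.LFY Pool.Agent.Q53.LFA

/-- The lattice condition of the known rationality theorems, for the plane vector `P`: `InC H d` for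
`d = 14`, `26`, `38` or `42`, or `T.(h - P)` is odd for some Hodge vector `T`. -/
def IsKnown (H : CubLat) (P : Fin 23 → ℤ) : Prop :=
  (InC H 14 ∨ InC H 26 ∨ InC H 38 ∨ InC H 42) ∨ ∃ T, H.IsHodge T ∧ Odd (H.ip T (H.h - P))

/-- **Cubic lattices with a plane vector and `InC H d`, `d ≤ 42` not divisible by four.** Then
`IsKnown H P` and `H.HasK3`. -/
theorem result {H : CubLat} (hH : H.IsCubic) {P : Fin 23 → ℤ} (hP : H.IsPl P) (d : ℤ) (hd : d ≤ 42)
    (h4 : ¬ (4 : ℤ) ∣ d) (hC : InC H d) : IsKnown H P ∧ H.HasK3 := by
  obtain ⟨v, h1, -, h3⟩ := hC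
  refine ⟨?_, (Pool.Agent.Q53.LFB.plane_iff hH hP).1.2 ⟨v, h1, by rw [h3]; exact h4⟩⟩
  by_cases hno : ∃ T, H.IsHodge T ∧ Odd (H.ip T (H.h - P))
  · exact Or.inr hno
  · refine Or.inl (Pool.Agent.Q53.LFB.plane_two hH hP h1 ?_ ?_ ?_)
    · exact (Pool.Agent.Q53.LFB.even_iff hH hP).2 fun h => hno ⟨v, h1, h⟩
    · rw [h3]; exact hd
    · rw [h3]; exact h4

end Pool.Agent.Results.MP_ffd2c1_ag.PlaneAndSmallDivisors
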