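import Pool.Agent.Q53.LFB.PlaneK3

/-!
# Cubic lattices with a plane vector and two more Hodge vectors

The theorem is about lattices of cubic type (`CubLat`, `CubLat.IsCubic`, module `Pool.Agent.Q53.LFY.Defs`):
`ℤ^23` with a symmetric unimodular form `H.ip`, a characteristic vector `H.h` with `h.h = 3` and a complex
vector `H.ω`; the Hodge vectors (`H.IsHodge v`; they form the group `H.hodge`) are those which are
orthogonal to `H.ω`; the form is positive on them, `h` is one of them, and there is no Hodge vector with
`(v.h, v.v) = (1, 1)` or `(0, 2)`. `H.disc v = 3 v.v - (v.h)^2` is the discriminant of the group spanned by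
`h` and `v`, `InC H d` means that it is `d` for some Hodge vector `v` such that this group is saturated, and
`H.HasK3` that this is so for some admissible `d`. `H.IsPl P`: `P` is a Hodge vector with `P.h = 1` and
`P.P = 3` (a plane vector). No theorem about cubic fourfolds is used or assumed.

By known theorems (Hodge, Voisin, Hassett) the group `H^4(X, ℤ)` of a smooth cubic fourfold `X`, with the
intersection form, the square of the hyperplane class and a generator of `H^{3,1}`, is such a lattice, and
the plane vectors are the classes of the planes in `X`. `InC H d` means that `X` is in Hassett's divisor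
`C_d`, and `H.HasK3` that `X` has an associated K3 surface. `X` is rational if `T.(h - P)` is odd for a plane
vector `P` and a Hodge vector `T` (Hassett), and if it is in `C_14` (Bolognesi, Russo, Staglianò), `C_26`,
`C_38` or `C_42` (Russo, Staglianò): `IsKnown` is this condition of the lattice.
-/

set_option autoImplicit false

namespace Pool.Agent.Results.MP_ffd2c1_ag.PlaneAndTwoClasses

open Pool.Agent.Q53.LFY Pool.Agent.Q53.LFY.CubLat Pool.Agent.Q53.LFA Pool.Agent.Q53.LFB

/-- The lattice condition of the known rationality theorems, for the plane vector `P`: `InC H d` for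
`d = 14`, `26`, `38` or `42`, or `T.(h - P)` is odd for some Hodge vector `T`. -/
def IsKnown (H : CubLat) (P : Fin 23 → ℤ) : Prop :=
  (InC H 14 ∨ InC H 26 ∨ InC H 38 ∨ InC H 42) ∨ ∃ T, H.IsHodge T ∧ Odd (H.ip T (H.h - P))

/-- **Cubic lattices with a plane vector `P` and two Hodge vectors `u`, `v`** whose discriminants are
divisible by four and at most `24`, with `u.v + (u.h)(v.h)` odd: then `IsKnown H P` and `H.HasK3`. -/
theorem result {H : CubLat} (hH : H.IsCubic) {P : Fin 23 → ℤ} (hP : H.IsPl P) (u v : Fin 23 → ℤ)
    (hu : H.IsHodge u) (hv : H.IsHodge v) (hu4 : (4 : ℤ) ∣ H.disc u) (hv4 : (4 : ℤ) ∣ H.disc v)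
    (hu24 : H.disc u ≤ 24) (hv24 : H.disc v ≤ 24)
    (hodd : Odd (H.ip u v + H.ip u H.h * H.ip v H.h)) : IsKnown H P ∧ H.HasK3 := by
  by_cases hno : ∃ T, H.IsHodge T ∧ Odd (H.ip T (H.h - P))
  · obtain ⟨T, hT, h⟩ := hno
    refine ⟨Or.inr ⟨T, hT, h⟩, (of_plane hH hP hT (Or.inr ?_)).2⟩
    rw [← Int.not_even_iff_odd, even_iff hH hP, not_not]
    exact h
  · have hev : ∀ T, H.IsHodge T → Even (D H P T) := fun T hT =>
      (even_iff hH hP).2 fun h => hno ⟨T, hT, h⟩
    have h1 : InK H := by
      refine plane_pair hH hP hu hv (hev u hu) (hev v hv) hu4 hv4 hu24 hv24 ?_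
      have e : D H u v = (H.ip u v + H.ip u H.h * H.ip v H.h) +
          2 * (H.ip u v - H.ip u H.h * H.ip v H.h) := by
        rw [D]; ring
      rw [e]
      exact hodd.add_even (even_two_mul _)
    exact ⟨Or.inl h1, hasK3_of_inK h1⟩

end Pool.Agent.Results.MP_ffd2c1_ag.PlaneAndTwoClasses
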